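import Pool.Agent.Y41.EV.StmD
import Pool.Agent.Y995.HG.Sc

/-!
Asymptotics of the scales.
-/

set_option autoImplicit false

namespace Pool.Agent.Y419.EV

open MeasureTheory Filter Topology Pool.Agent.Y995.HG Pool.Agent.Y41.EV

theorem kf_le {K2 : ℝ} (hK : 1 ≤ K2) {i : ℕ} (hi : 1 ≤ i) :
    14 * K2 * (kf K2 i : ℝ) ≤ Real.log i := by
  have hi' : (1:ℝ) ≤ i := by exact_mod_cast hi
  have hl : 0 ≤ Real.log i := Real.log_nonneg hi'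
  have h2 : (kf K2 i : ℝ) ≤ Real.log i / (14 * K2) := Nat.floor_le (by positivity)
  rw [le_div_iff₀ (by positivity)] at h2
  linarith

theorem EE_le {K2 : ℝ} (hK : 1 ≤ K2) {i : ℕ} (hi : 1 ≤ i) :
    EE K2 i ^ (7/4 : ℝ) ≤ (i : ℝ) ^ (1/4 : ℝ) := by
  have hi' : (1:ℝ) ≤ i := by exact_mod_cast hi
  unfold EE
  rw [← Real.exp_mul, Real.rpow_def_of_pos (by linarith)]
  refine Real.exp_le_exp.mpr ?_
  have := kf_le hK hi
  linarith

theorem EE_pos (K2 : ℝ) (i : ℕ) : 0 < EE K2 i := Real.exp_pos _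

theorem ll_ww {i : ℕ} (hi : 2 ≤ i) : ll (ww i) ≤ 4 * Real.log i := by
  have hi' : (2:ℝ) ≤ i := by exact_mod_cast hi
  have hl2 := Real.log_two_gt_d9
  have hl : Real.log 2 ≤ Real.log i := Real.log_le_log (by norm_num) hi'
  unfold ll
  refine max_le (by linarith) ?_
  have e1 : Real.log (1 / ww i) = (4 * i ^ 2 : ℕ) * Real.log 2 := by
    unfold ww
    rw [one_div, ← inv_pow, one_div, inv_inv, Real.log_pow]
  rw [e1]
  have h1 : ((4 * i ^ 2 : ℕ) : ℝ) * Real.log 2 ≤ (i : ℝ) ^ 4 := by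
    push_cast
    have h2 := Real.log_two_lt_d9
    have h3 : (4 : ℝ) ≤ (i : ℝ) ^ 2 := by nlinarith
    have h4 : (4 * (i : ℝ) ^ 2) * Real.log 2 ≤ (4 * (i : ℝ) ^ 2) * 1 :=
      mul_le_mul_of_nonneg_left (by linarith) (by positivity)
    nlinarith [sq_nonneg ((i : ℝ) ^ 2)]
  have h5 : 0 < ((4 * i ^ 2 : ℕ) : ℝ) * Real.log 2 := by
    push_cast
    have : (0:ℝ) < i := by linarith
    positivity
  refine (Real.log_le_log h5 h1).trans (le_of_eq ?_)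
  rw [Real.log_pow]
  push_cast
  ring

theorem psi_ge {i : ℕ} (hi : 2 ≤ i) :
    (1/2 : ℝ) ^ (7 * i ^ 2) ≤ psi (ww i) * (4 * Real.log i) ^ (3/4 : ℝ) := by
  unfold psi
  rw [ww_pow]
  have h1 : 0 < ll (ww i) ^ (3/4 : ℝ) := Real.rpow_pos_of_pos (ll_pos _) _
  have h2 : ll (ww i) ^ (3/4 : ℝ) ≤ (4 * Real.log i) ^ (3/4 : ℝ) :=
    Real.rpow_le_rpow (ll_pos _).le (ll_ww hi) (by norm_num)
  rw [div_mul_eq_mul_div, le_div_iff₀ h1]
  exact mul_le_mul_of_nonneg_left h2 (by positivity)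

theorem psi_pos (i : ℕ) : 0 < psi (ww i) := by
  unfold psi
  exact div_pos (Real.rpow_pos_of_pos (ww_pos i) _) (Real.rpow_pos_of_pos (ll_pos _) _)

theorem NN_pos (i : ℕ) : (1 : ℝ) ≤ NN i := by
  have h1 := NN_ge i
  have h2 : (0:ℝ) < 2 ^ i := by positivity
  have h3 : NN i ≠ 0 := by
    intro h
    rw [h] at h1
    push_cast at h1
    linarith
  exact_mod_cast Nat.one_le_iff_ne_zero.2 h3

theorem log34_le {i : ℕ} (hi : 2 ≤ i) :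
    (4 * Real.log i) ^ (3/4 : ℝ) ≤ 4 * (i : ℝ) ^ (3/4 : ℝ) := by
  have hi' : (2:ℝ) ≤ i := by exact_mod_cast hi
  have h1 : 0 ≤ Real.log i := Real.log_nonneg (by linarith)
  have h2 : Real.log i ≤ i := (Real.log_le_sub_one_of_pos (by linarith)).trans (by linarith)
  rw [Real.mul_rpow (by norm_num) h1]
  refine mul_le_mul ?_ (Real.rpow_le_rpow h1 h2 (by norm_num)) (Real.rpow_nonneg h1 _)
    (by norm_num)
  calc (4 : ℝ) ^ (3/4 : ℝ) ≤ (4 : ℝ) ^ (1 : ℝ) :=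
        Real.rpow_le_rpow_of_exponent_le (by norm_num) (by norm_num)
    _ = 4 := Real.rpow_one _

/-! ### SC2 -/

theorem aa_eq (A0 K2 : ℝ) (i : ℕ) : aa A0 K2 i = psi (ww i) /
    (4 * A0 * ((1/2 : ℝ) ^ (7 * i ^ 2) * EE K2 i ^ (7/4 : ℝ))) := by
  have hN := NN_pos i
  have hN0 : (NN i : ℝ) ≠ 0 := by linarith
  unfold aa ell
  rw [Real.mul_rpow (ww_pos i).le (EE_pos K2 i).le, ww_pow]
  rw [show 4 * (A0 * ((1/2 : ℝ) ^ (7 * i ^ 2) * EE K2 i ^ (7/4 : ℝ) * (NN i : ℝ))) =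
    (NN i : ℝ) * (4 * A0 * ((1/2 : ℝ) ^ (7 * i ^ 2) * EE K2 i ^ (7/4 : ℝ))) by ring]
  exact mul_div_mul_left _ _ hN0

theorem aa_nonneg {A0 K2 : ℝ} (hA : 1 ≤ A0) (i : ℕ) : 0 ≤ aa A0 K2 i := by
  rw [aa_eq]
  have h1 := psi_pos i
  have h2 := EE_pos K2 i
  positivity

theorem aa_ge {A0 K2 : ℝ} (hK : 1 ≤ K2) (hA : 1 ≤ A0) {i : ℕ} (hi : 2 ≤ i) :
    1 / (16 * A0) * (1 / (i : ℝ)) ≤ aa A0 K2 i := by
  have hi0 : (0:ℝ) < i := by
    have : (2:ℝ) ≤ i := by exact_mod_cast hi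
    linarith
  have hE := Real.rpow_pos_of_pos (EE_pos K2 i) (7/4 : ℝ)
  have hp : (0 : ℝ) < (1/2 : ℝ) ^ (7 * i ^ 2) := by positivity
  rw [aa_eq, le_div_iff₀ (by positivity)]
  have h1 := psi_ge hi
  have h2 := log34_le hi
  have h3 := EE_le hK (show 1 ≤ i by omega)
  have h4 : (i : ℝ) ^ (3/4 : ℝ) * (i : ℝ) ^ (1/4 : ℝ) = i := by
    rw [← Real.rpow_add hi0]
    norm_num
  have hps := psi_pos i
  have h5 : (1/2 : ℝ) ^ (7 * i ^ 2) * EE K2 i ^ (7/4 : ℝ) ≤ psi (ww i) * (4 * i) := by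
    calc (1/2 : ℝ) ^ (7 * i ^ 2) * EE K2 i ^ (7/4 : ℝ)
        ≤ (psi (ww i) * (4 * (i : ℝ) ^ (3/4 : ℝ))) * (i : ℝ) ^ (1/4 : ℝ) := by
          refine mul_le_mul (h1.trans ?_) h3 hE.le (by positivity)
          exact mul_le_mul_of_nonneg_left h2 hps.le
      _ = psi (ww i) * (4 * ((i : ℝ) ^ (3/4 : ℝ) * (i : ℝ) ^ (1/4 : ℝ))) := by ring
      _ = _ := by rw [h4]
  calc 1 / (16 * A0) * (1 / (i : ℝ)) *
        (4 * A0 * ((1/2 : ℝ) ^ (7 * i ^ 2) * EE K2 i ^ (7/4 : ℝ)))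
      ≤ 1 / (16 * A0) * (1 / (i : ℝ)) * (4 * A0 * (psi (ww i) * (4 * i))) := by
        gcongr
    _ = psi (ww i) := by
        field_simp
        ring

theorem sc2 : S_SC2 := by
  intro K2 A0 hK hA i0
  have h1 : (fun m : ℕ => ∑ i ∈ Finset.Ico i0 (i0 + m), aa A0 K2 i) =
      fun m : ℕ => ∑ i ∈ Finset.range m, aa A0 K2 (i0 + i) := by
    funext m
    rw [Finset.sum_Ico_eq_sum_range, Nat.add_sub_cancel_left]
  rw [h1, ← not_summable_iff_tendsto_nat_atTop_of_nonneg fun i => aa_nonneg hA _]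
  intro hs
  have h2 : Summable fun n : ℕ => aa A0 K2 (n + (i0 + 2)) := by
    have h3 := (summable_nat_add_iff 2).2 hs
    refine h3.congr fun n => ?_
    congr 1
    omega
  have h4 : Summable fun n : ℕ => 1 / (16 * A0) * (1 / ((n + (i0 + 2) : ℕ) : ℝ)) := by
    refine Summable.of_nonneg_of_le (fun n => by positivity) (fun n => ?_) h2
    exact aa_ge hK hA (by omega)
  have h5 : Summable fun n : ℕ => 1 / ((n + (i0 + 2) : ℕ) : ℝ) :=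
    (summable_mul_left_iff (by positivity)).1 h4
  exact Real.not_summable_one_div_natCast ((summable_nat_add_iff (i0 + 2)).1 h5)

/-! ### SC1 -/

theorem kf_tend {K2 : ℝ} (hK : 1 ≤ K2) : Tendsto (kf K2) atTop atTop := by
  have h1 : Tendsto (fun i : ℕ => Real.log i / (14 * K2)) atTop atTop :=
    (Real.tendsto_log_atTop.comp tendsto_natCast_atTop_atTop).atTop_div_const (by linarith)
  exact tendsto_nat_floor_atTop.comp h1

theorem log_le_kf {K2 : ℝ} (hK : 1 ≤ K2) {i : ℕ} (hk : 1 ≤ kf K2 i) :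
    4 * Real.log i ≤ 112 * K2 * (kf K2 i : ℝ) := by
  have h1 : Real.log i / (14 * K2) < (kf K2 i : ℝ) + 1 := Nat.lt_floor_add_one _
  rw [div_lt_iff₀ (by positivity)] at h1
  have h2 : (1 : ℝ) ≤ (kf K2 i : ℝ) := by exact_mod_cast hk
  nlinarith

theorem tau_le {θ K2 : ℝ} (hθ : 0 < θ) (hK : 1 ≤ K2) {i : ℕ} (hi : 2 ≤ i) (hk : 1 ≤ kf K2 i) :
    tau θ K2 i ≤ θ * (112 * K2) ^ (3/4 : ℝ) * psi (ww i) := by
  have hi' : (2:ℝ) ≤ i := by exact_mod_cast hi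
  have hl : 0 ≤ Real.log i := Real.log_nonneg (by linarith)
  have hk0 : (0 : ℝ) < (kf K2 i : ℝ) := by exact_mod_cast hk
  have h1 : (4 * Real.log i) ^ (3/4 : ℝ) ≤ (112 * K2) ^ (3/4 : ℝ) * (kf K2 i : ℝ) ^ (3/4 : ℝ) := by
    rw [← Real.mul_rpow (by positivity) hk0.le]
    exact Real.rpow_le_rpow (by positivity) (log_le_kf hK hk) (by norm_num)
  have h2 := psi_ge hi
  have hps := psi_pos i
  have hkr : (0 : ℝ) < (kf K2 i : ℝ) ^ (-(3/4) : ℝ) := Real.rpow_pos_of_pos hk0 _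
  have h3 : (kf K2 i : ℝ) ^ (-(3/4) : ℝ) * (kf K2 i : ℝ) ^ (3/4 : ℝ) = 1 := by
    rw [← Real.rpow_add hk0]
    norm_num
  unfold tau
  rw [ww_pow]
  calc θ * ((kf K2 i : ℝ) ^ (-(3/4) : ℝ) * (1/2 : ℝ) ^ (7 * i ^ 2))
      ≤ θ * ((kf K2 i : ℝ) ^ (-(3/4) : ℝ) * (psi (ww i) *
          ((112 * K2) ^ (3/4 : ℝ) * (kf K2 i : ℝ) ^ (3/4 : ℝ)))) := by
        refine mul_le_mul_of_nonneg_left (mul_le_mul_of_nonneg_left ?_ hkr.le) hθ.le
        exact h2.trans (mul_le_mul_of_nonneg_left h1 hps.le)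
    _ = θ * (112 * K2) ^ (3/4 : ℝ) * psi (ww i) *
          ((kf K2 i : ℝ) ^ (-(3/4) : ℝ) * (kf K2 i : ℝ) ^ (3/4 : ℝ)) := by ring
    _ = _ := by rw [h3, mul_one]

theorem nat_half (i : ℕ) : (i : ℝ) ≤ 2 ^ i := by
  have : i < 2 ^ i := Nat.lt_two_pow_self
  exact_mod_cast this.le

theorem ell_le {A0 K2 : ℝ} (hA : 1 ≤ A0) (hK : 1 ≤ K2) {i : ℕ} (hi : 2 ≤ i) :
    ell A0 K2 (i + 1) ≤ A0 * (1/2) ^ i * psi (ww i) := by
  have hi' : (2:ℝ) ≤ i := by exact_mod_cast hi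
  have hps := psi_pos i
  have h1 := EE_le hK (show 1 ≤ i + 1 by omega)
  have h2 : (NN (i + 1) : ℝ) ≤ 2 ^ (i + 1) := by
    have h3 := NN_le (i + 1)
    have h4 : (0 : ℝ) ≤ (NN (i + 1) : ℝ) := Nat.cast_nonneg _
    have h5 : (0 : ℝ) ≤ ((Nat.sqrt (i + 1) : ℕ) : ℝ) := Nat.cast_nonneg _
    nlinarith
  have h3 : ((i + 1 : ℕ) : ℝ) ^ (1/4 : ℝ) ≤ 2 ^ (i + 1) := by
    refine le_trans ?_ (nat_half (i + 1))
    have h4 : (1 : ℝ) ≤ ((i + 1 : ℕ) : ℝ) := by push_cast; linarith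
    calc ((i + 1 : ℕ) : ℝ) ^ (1/4 : ℝ) ≤ ((i + 1 : ℕ) : ℝ) ^ (1 : ℝ) :=
          Real.rpow_le_rpow_of_exponent_le h4 (by norm_num)
      _ = _ := Real.rpow_one _
  have h4 : (4 * Real.log i) ^ (3/4 : ℝ) ≤ 4 * 2 ^ i := by
    refine (log34_le hi).trans (mul_le_mul_of_nonneg_left ?_ (by norm_num))
    refine le_trans ?_ (nat_half i)
    calc (i : ℝ) ^ (3/4 : ℝ) ≤ (i : ℝ) ^ (1 : ℝ) :=
          Real.rpow_le_rpow_of_exponent_le (by linarith) (by norm_num)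
      _ = _ := Real.rpow_one _
  have h5 := (psi_ge hi).trans (mul_le_mul_of_nonneg_left h4 hps.le)
  have hp : (0 : ℝ) < (1/2 : ℝ) ^ (7 * (i + 1) ^ 2) := by positivity
  have hE := Real.rpow_pos_of_pos (EE_pos K2 (i + 1)) (7/4 : ℝ)
  unfold ell
  rw [Real.mul_rpow (ww_pos _).le (EE_pos K2 _).le, ww_pow]
  have h6 : ((1/2 : ℝ)) ^ (7 * (i + 1) ^ 2) =
      (1/2) ^ (7 * i ^ 2) * (1/2) ^ (14 * i + 7) := by
    rw [← pow_add]
    congr 1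
    ring
  have h7 : (2 : ℝ) ^ (i + 1) * 2 ^ (i + 1) * (4 * 2 ^ i) * (1/2) ^ (14 * i + 7) ≤ (1/2) ^ i := by
    have e1 : (2 : ℝ) ^ (i + 1) * 2 ^ (i + 1) * (4 * 2 ^ i) = 2 ^ (3 * i + 4) := by
      rw [show (4 : ℝ) = 2 ^ 2 by norm_num, ← pow_add, ← pow_add, ← pow_add]
      congr 1
      ring
    have e2 : (1/2 : ℝ) ^ (14 * i + 7) = (1/2) ^ (3 * i + 4) * (1/2) ^ (11 * i + 3) := by
      rw [← pow_add]
      congr 1
      ring
    rw [e1, e2, ← mul_assoc, ← mul_pow, show (2 : ℝ) * (1/2) = 1 by norm_num, one_pow, one_mul]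
    exact pow_le_pow_of_le_one (by norm_num) (by norm_num) (by omega)
  calc A0 * ((1/2 : ℝ) ^ (7 * (i + 1) ^ 2) * EE K2 (i + 1) ^ (7/4 : ℝ) * (NN (i + 1) : ℝ))
      ≤ A0 * ((1/2 : ℝ) ^ (7 * (i + 1) ^ 2) * 2 ^ (i + 1) * 2 ^ (i + 1)) := by
        have h8 := h1.trans h3
        gcongr
    _ = A0 * ((1/2 : ℝ) ^ (7 * i ^ 2) * ((1/2) ^ (14 * i + 7) * 2 ^ (i + 1) * 2 ^ (i + 1))) := by
        rw [h6]
        ring
    _ ≤ A0 * (psi (ww i) * (4 * 2 ^ i) * ((1/2) ^ (14 * i + 7) * 2 ^ (i + 1) * 2 ^ (i + 1))) := by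
        gcongr
    _ = A0 * psi (ww i) * (2 ^ (i + 1) * 2 ^ (i + 1) * (4 * 2 ^ i) * (1/2) ^ (14 * i + 7)) := by
        ring
    _ ≤ A0 * psi (ww i) * (1/2) ^ i := by gcongr
    _ = _ := by ring

theorem sc1 : S_SC1 := by
  intro θ K2 A0 hθ hK hA
  obtain ⟨C1, hC1⟩ : ∃ C1, C1 = θ * (112 * K2) ^ (3/4 : ℝ) := ⟨_, rfl⟩
  have hC0 : 0 < C1 := by rw [hC1]; positivity
  refine ⟨1 / (2 * C1 + 4), by positivity, ?_⟩
  have h1 : Tendsto (fun i : ℕ => A0 * ((1:ℝ)/2) ^ i) atTop (𝓝 (A0 * 0)) :=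
    half_tend.const_mul A0
  rw [mul_zero] at h1
  filter_upwards [h1.eventually (ge_mem_nhds one_pos), eventually_ge_atTop 2,
    (kf_tend hK).eventually (eventually_ge_atTop 1)] with i h2 hi hk
  have h3 := tau_le hθ hK hi hk
  have h4 := ell_le hA hK hi
  have hps := psi_pos i
  have h5 : ell A0 K2 (i + 1) ≤ psi (ww i) := by
    refine h4.trans ?_
    have := mul_le_mul_of_nonneg_right h2 hps.le
    linarith
  rw [← hC1] at h3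
  rw [one_div_mul_eq_div, div_le_iff₀ (by positivity)]
  nlinarith

end Pool.Agent.Y419.EV
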